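import Pool.Agent.Helper61.BT.Goals

/-!
# TRS of project BT: the step of the triangular systems
-/

set_option autoImplicit false

namespace Pool.Agent.Helper43.BT

open Pool.Agent.Helper27.VF Pool.Agent.Helper38.VF Pool.Agent.Helper61.BT

universe u

theorem trs : TrsStmt.{u} := by
  intro A _ B hStp k hTri
  obtain ⟨hext, x₀, E₀, o₀, hE₀, ho₀, hder⟩ := hStp
  obtain ⟨x, E, o, hE, ho, h⟩ := hTri
  refine ⟨Fin.cons x₀ (fun i => (x i : A)), Fin.cons E₀ (fun i => (E i).map B.subtype),
    Fin.cons o₀ (fun i => Option.map (⇑B.subtype) (o i)), ?_, ?_, ?_⟩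
  · intro i
    refine Fin.cases ?_ (fun i => ?_) i
    · simpa using hE₀
    · simp only [Fin.cons_succ]
      rw [Subgroup.coe_map]
      exact (hE i).image _
  · intro i
    refine Fin.cases ?_ (fun i => ?_) i
    · simpa using ho₀
    · intro y hy
      simp only [Fin.cons_succ] at hy ⊢
      rw [Option.map_eq_some_iff] at hy
      obtain ⟨z, hz, rfl⟩ := hy
      intro hmem
      rw [Subgroup.mem_map] at hmem
      obtain ⟨e, he, hez⟩ := hmem
      have : e = z := Subtype.ext hez
      subst this
      exact ho i _ hz he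
  · intro M _ _ _ hLin i
    refine Fin.cases ?_ (fun i => ?_) i
    · intro v hv
      simp only [Fin.cons_zero] at hv ⊢
      obtain ⟨δ, hδ, hB, hx⟩ := hder M hLin v hv
      refine ⟨δ, hδ, hx, ?_⟩
      intro j hj
      refine Fin.cases (fun hj => absurd hj (lt_irrefl _)) (fun j _ => ?_) j hj
      simp only [Fin.cons_succ]
      exact hB _ (x j).2
    · intro v hv
      simp only [Fin.cons_succ] at hv ⊢
      have hLinB : Lin B M := fun b r m => hLin (b : A) r m
      have hv' : ∀ e ∈ E i, e • v = v := by
        intro e he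
        exact hv (e : A) (Subgroup.mem_map.2 ⟨e, he, rfl⟩)
      obtain ⟨f, hf, hfx, hfj⟩ := h M hLinB i v hv'
      have hfOn : IsDerOn B f := by
        intro b b'
        exact hf b b'
      obtain ⟨δ, hδ, hδf⟩ := hext M hLin f hfOn
      refine ⟨δ, hδ, ?_, ?_⟩
      · rw [hδf, hfx]
        cases hoi : o i with
        | none => simp [Uv]
        | some y => simp [Uv, Subgroup.smul_def]
      · intro j hj
        refine Fin.cases (fun hj => ?_) (fun j hj => ?_) j hj
        · exact absurd hj (not_lt.2 (Fin.zero_le _))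
        · simp only [Fin.cons_succ]
          rw [hδf]
          exact hfj j (Fin.succ_lt_succ_iff.1 hj)

end Pool.Agent.Helper43.BT
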